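import Pool.Agent.Run7.h594.JM.Gal

/-! Piece RAM (helper594). -/

set_option autoImplicit false

namespace Run7.h594.JM

open Run7.h441.JM

section

variable {q : ℕ} [hq : Fact q.Prime] (ι : Ω →+* PadicAlgCl q)

/-- the nonzero elements have values in `q ^ ℤ` -/
def Good (F : Subfield Ω) : Prop := ∀ z ∈ F, z ≠ 0 → ∃ m : ℤ, ‖ι z‖ = (q : ℝ) ^ m

/-- `F (t)` for `t ^ 2 ∈ F` -/
def ext (F : Subfield Ω) (t : Ω) (ht : t ^ 2 ∈ F) : Subfield Ω where
  carrier := {z | ∃ a ∈ F, ∃ b ∈ F, z = a + b * t}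
  mul_mem' := by
    rintro _ _ ⟨a, ha, b, hb, rfl⟩ ⟨c, hc, d, hd, rfl⟩
    exact ⟨a * c + b * d * t ^ 2,
      F.add_mem (F.mul_mem ha hc) (F.mul_mem (F.mul_mem hb hd) ht), a * d + b * c,
      F.add_mem (F.mul_mem ha hd) (F.mul_mem hb hc), by ring⟩
  one_mem' := ⟨1, F.one_mem, 0, F.zero_mem, by ring⟩
  add_mem' := by
    rintro _ _ ⟨a, ha, b, hb, rfl⟩ ⟨c, hc, d, hd, rfl⟩
    exact ⟨a + c, F.add_mem ha hc, b + d, F.add_mem hb hd, by ring⟩
  zero_mem' := ⟨0, F.zero_mem, 0, F.zero_mem, by ring⟩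
  neg_mem' := by
    rintro _ ⟨a, ha, b, hb, rfl⟩
    exact ⟨-a, F.neg_mem ha, -b, F.neg_mem hb, by ring⟩
  inv_mem' := by
    rintro _ ⟨a, ha, b, hb, rfl⟩
    by_cases h0 : a + b * t = 0
    · rw [h0, inv_zero]
      exact ⟨0, F.zero_mem, 0, F.zero_mem, by ring⟩
    by_cases h1 : a - b * t = 0
    · have h2 : a + b * t = a + a := by
        have : b * t = a := by linear_combination -h1
        rw [this]
      rw [h2]
      exact ⟨(a + a)⁻¹, F.inv_mem (F.add_mem ha ha), 0, F.zero_mem, by ring⟩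
    · have h3 : a ^ 2 - b ^ 2 * t ^ 2 ≠ 0 := by
        have : a ^ 2 - b ^ 2 * t ^ 2 = (a + b * t) * (a - b * t) := by ring
        rw [this]
        exact mul_ne_zero h0 h1
      have h4 : a ^ 2 - b ^ 2 * t ^ 2 ∈ F :=
        F.sub_mem (F.pow_mem ha 2) (F.mul_mem (F.pow_mem hb 2) ht)
      refine ⟨a * (a ^ 2 - b ^ 2 * t ^ 2)⁻¹, F.mul_mem ha (F.inv_mem h4),
        -b * (a ^ 2 - b ^ 2 * t ^ 2)⁻¹, F.mul_mem (F.neg_mem hb) (F.inv_mem h4), ?_⟩
      have h5 : a * (a ^ 2 - b ^ 2 * t ^ 2)⁻¹ + -b * (a ^ 2 - b ^ 2 * t ^ 2)⁻¹ * t =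
          (a - b * t) * (a ^ 2 - b ^ 2 * t ^ 2)⁻¹ := by ring
      rw [h5, inv_eq_iff_eq_inv, mul_inv, inv_inv]
      field_simp
      ring

lemma le_ext (F : Subfield Ω) (t : Ω) (ht : t ^ 2 ∈ F) : F ≤ ext F t ht := fun a ha =>
  ⟨a, ha, 0, F.zero_mem, by ring⟩

lemma mem_ext (F : Subfield Ω) (t : Ω) (ht : t ^ 2 ∈ F) : t ∈ ext F t ht :=
  ⟨0, F.zero_mem, 1, F.one_mem, by ring⟩

lemma good_ext (h2 : ‖ι 2‖ = 1) (F : Subfield Ω) (hF : Good ι F) (t : Ω) (ht : t ^ 2 ∈ F)
    (h1 : ‖ι t‖ = 1) : Good ι (ext F t ht) := by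
  rintro _ ⟨a, ha, b, hb, rfl⟩ hz
  have hbt : ‖ι (b * t)‖ = ‖ι b‖ := by rw [map_mul, norm_mul, h1, mul_one]
  by_cases ha0 : a = 0
  · subst ha0
    have hb0 : b ≠ 0 := by
      rintro rfl
      simp at hz
    obtain ⟨m, hm⟩ := hF b hb hb0
    exact ⟨m, by rw [zero_add, hbt, hm]⟩
  by_cases hb0 : b = 0
  · subst hb0
    obtain ⟨m, hm⟩ := hF a ha ha0
    exact ⟨m, by rw [zero_mul, add_zero, hm]⟩
  obtain ⟨ma, hma⟩ := hF a ha ha0
  obtain ⟨mb, hmb⟩ := hF b hb hb0
  by_cases hne : ‖ι a‖ = ‖ι b‖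
  · by_cases hzr : ‖ι (a + b * t)‖ = ‖ι a‖
    · exact ⟨ma, by rw [hzr, hma]⟩
    have hle : ‖ι (a + b * t)‖ ≤ ‖ι a‖ := by
      rw [map_add]
      refine (IsUltrametricDist.norm_add_le_max _ _).trans ?_
      rw [hbt, hne, max_self]
    have hlt : ‖ι (a + b * t)‖ < ‖ι a‖ := lt_of_le_of_ne hle hzr
    have h3 : ‖ι (a - b * t)‖ = ‖ι a‖ := by
      have e : a - b * t = (a + b * t) + -(2 * (b * t)) := by ring
      have e2 : ‖ι (-(2 * (b * t)))‖ = ‖ι a‖ := by
        rw [map_neg, norm_neg, map_mul, norm_mul, h2, one_mul, hbt, hne]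
      rw [e, map_add, IsUltrametricDist.norm_add_eq_max_of_norm_ne_norm (by rw [e2]; exact hlt.ne),
        e2]
      exact max_eq_right hlt.le
    have h4 : a ^ 2 - b ^ 2 * t ^ 2 = (a + b * t) * (a - b * t) := by ring
    have h5 : a ^ 2 - b ^ 2 * t ^ 2 ∈ F :=
      F.sub_mem (F.pow_mem ha 2) (F.mul_mem (F.pow_mem hb 2) ht)
    have h6 : a - b * t ≠ 0 := by
      intro h7
      rw [h7, map_zero, norm_zero] at h3
      exact ha0 (by
        have := norm_eq_zero.1 h3.symm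
        exact (map_eq_zero ι).1 this)
    obtain ⟨m, hm⟩ := hF _ h5 (by rw [h4]; exact mul_ne_zero hz h6)
    rw [h4, map_mul, norm_mul, h3, hma] at hm
    have hq0 : (q : ℝ) ≠ 0 := by exact_mod_cast hq.out.ne_zero
    refine ⟨m - ma, ?_⟩
    rw [zpow_sub₀ hq0, eq_div_iff (zpow_ne_zero _ hq0), hm]
  · have h3 : ‖ι (a + b * t)‖ = max ‖ι a‖ ‖ι b‖ := by
      rw [map_add, IsUltrametricDist.norm_add_eq_max_of_norm_ne_norm (by rw [hbt]; exact hne), hbt]
    rw [h3]
    rcases max_choice ‖ι a‖ ‖ι b‖ with h | h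
    · exact ⟨ma, by rw [h, hma]⟩
    · exact ⟨mb, by rw [h, hmb]⟩

lemma good_finset (h2 : ‖ι 2‖ = 1) (T : Finset Ω) : ∀ (F : Subfield Ω), Good ι F →
    (∀ t ∈ T, t ^ 2 ∈ F ∧ ‖ι t‖ = 1) → ∃ F' : Subfield Ω, Good ι F' ∧ F ≤ F' ∧ ∀ t ∈ T, t ∈ F' := by
  classical
  induction T using Finset.induction_on with
  | empty => exact fun F hF _ => ⟨F, hF, le_rfl, by simp⟩
  | insert t T _ ih =>
    intro F hF hT
    obtain ⟨h3, h4⟩ := hT t (Finset.mem_insert_self _ _)
    obtain ⟨F', hF', hle, hmem⟩ := ih (ext F t h3) (good_ext ι h2 F hF t h3 h4) (fun s hs =>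
      ⟨le_ext F t h3 (hT s (Finset.mem_insert_of_mem hs)).1,
        (hT s (Finset.mem_insert_of_mem hs)).2⟩)
    refine ⟨F', hF', (le_ext F t h3).trans hle, fun s hs => ?_⟩
    rcases Finset.mem_insert.1 hs with rfl | hs
    · exact hle (mem_ext F s h3)
    · exact hmem s hs

lemma norm_rat (r : ℚ) : ‖ι (r : Ω)‖ = ‖(r : ℚ_[q])‖ := by
  rw [map_ratCast, ← map_ratCast (algebraMap ℚ_[q] (PadicAlgCl q)) r]
  exact PadicAlgCl.norm_extends q _

lemma norm_int (r : ℤ) : ‖ι (r : Ω)‖ = ‖(r : ℚ_[q])‖ := by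
  have := norm_rat ι (r : ℚ)
  push_cast at this
  exact this

lemma good_base : Good ι (algebraMap ℚ Ω).fieldRange := by
  rintro _ ⟨r, rfl⟩ hr
  have hr0 : (r : ℚ_[q]) ≠ 0 := by
    intro h
    apply hr
    have : r = 0 := by exact_mod_cast h
    rw [this, map_zero]
  refine ⟨-(r : ℚ_[q]).valuation, ?_⟩
  have : algebraMap ℚ Ω r = (r : Ω) := by simp
  rw [this, norm_rat, Padic.norm_eq_zpow_neg_valuation hr0]

lemma lev_norm {k : ℤ} (hk : ‖ι (k : Ω)‖ = 1) : ∀ (m : ℕ) (y : Ω), Lev k m y → ‖ι y‖ ≤ 1 := by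
  intro m
  induction m with
  | zero =>
    intro y hy
    have : y = 1 := hy
    rw [this, map_one, norm_one]
  | succ m ih =>
    rintro y ⟨u, hu, h⟩
    have hu1 := ih u hu
    by_contra hlt
    push Not at hlt
    have e : (k : Ω) * y ^ 2 = u * y + k := by linear_combination h
    have e1 : ‖ι ((k : Ω) * y ^ 2)‖ = ‖ι y‖ ^ 2 := by
      rw [map_mul, norm_mul, hk, one_mul, map_pow, norm_pow]
    have e2 : ‖ι (u * y + k)‖ ≤ ‖ι y‖ := by
      rw [map_add]
      refine (IsUltrametricDist.norm_add_le_max _ _).trans (max_le ?_ ?_)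
      · rw [map_mul, norm_mul]
        nlinarith [norm_nonneg (ι y)]
      · rw [hk]; exact hlt.le
    rw [e] at e1
    nlinarith

end

theorem t_RAM (hPRD : S_PRD) : S_RAM := by
  intro k hk n q hqp hq2k hD x d hd hx hfix
  have : Fact q.Prime := ⟨hqp⟩
  let ι : Ω →+* PadicAlgCl q := (IsAlgClosed.lift : Ω →ₐ[ℚ] PadicAlgCl q).toRingHom
  have hint : ∀ z : ℤ, ¬ ((q : ℤ) ∣ z) → ‖ι (z : Ω)‖ = 1 := by
    intro z hz
    rw [norm_int]
    refine le_antisymm (Padic.norm_int_le_one z) ?_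
    by_contra h
    push Not at h
    exact hz ((Padic.norm_intCast_lt_one_iff (k := z)).1 h)
  have hintle : ∀ z : ℤ, ‖ι (z : Ω)‖ ≤ 1 := by
    intro z
    rw [norm_int]
    exact Padic.norm_int_le_one z
  have hk1 : ‖ι (k : Ω)‖ = 1 := hint k fun h => hq2k (Dvd.dvd.mul_left h 2)
  have h21 : ‖ι 2‖ = 1 := by
    have := hint 2 fun h => hq2k (Dvd.dvd.mul_right h k)
    push_cast at this
    exact this
  have hk0 : (k : Ω) ≠ 0 := by exact_mod_cast hk
  have hunit : ∀ m : ℕ, m + 1 ≤ n → ∀ v : Ω, Lev k m v → ‖ι (v ^ 2 + 4 * (k : Ω) ^ 2)‖ = 1 := by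
    intro m hm v hv
    obtain ⟨hfin, -, hprod⟩ := hPRD k hk m
    have hY := hprod hfin.toFinset (fun y => by simp)
    have hle : ∀ w : Ω, Lev k m w → ‖ι (w ^ 2 + 4 * (k : Ω) ^ 2)‖ ≤ 1 := by
      intro w hw
      rw [map_add]
      refine (IsUltrametricDist.norm_add_le_max _ _).trans (max_le ?_ ?_)
      · rw [map_pow, norm_pow]
        exact pow_le_one₀ (norm_nonneg _) (lev_norm ι hk1 m w hw)
      · have := hintle (4 * k ^ 2)
        push_cast at this
        exact this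
    have h1 : ‖ι (((D k (m + 1) : ℤ)) : Ω)‖ = 1 := hint _ (hD (m + 1) (by omega) hm)
    rw [← hY, map_mul, norm_mul, map_pow, norm_pow, hk1, one_pow, one_mul, map_prod,
      norm_prod] at h1
    have hvm : v ∈ hfin.toFinset := by simpa using hv
    classical
    rw [← Finset.mul_prod_erase _ _ hvm] at h1
    have h2 : ∏ w ∈ hfin.toFinset.erase v, ‖ι (w ^ 2 + 4 * (k : Ω) ^ 2)‖ ≤ 1 := by
      refine Finset.prod_le_one (fun _ _ => norm_nonneg _) fun w hw => ?_
      have := Finset.mem_of_mem_erase hw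
      exact hle w (by simpa using this)
    refine le_antisymm (hle v hv) ?_
    have h3 : ‖ι (v ^ 2 + 4 * (k : Ω) ^ 2)‖ *
        ∏ w ∈ hfin.toFinset.erase v, ‖ι (w ^ 2 + 4 * (k : Ω) ^ 2)‖ ≤
        ‖ι (v ^ 2 + 4 * (k : Ω) ^ 2)‖ * 1 :=
      mul_le_mul_of_nonneg_left h2 (norm_nonneg _)
    linarith
  have hlev : ∀ m : ℕ, m ≤ n → ∃ F : Subfield Ω, Good ι F ∧ ∀ y : Ω, Lev k m y → y ∈ F := by
    intro m
    induction m with
    | zero =>
      intro _
      refine ⟨_, good_base ι, fun y hy => ?_⟩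
      have : y = 1 := hy
      rw [this]
      exact Subfield.one_mem _
    | succ m ih =>
      intro hm
      obtain ⟨F, hF, hmem⟩ := ih (by omega)
      obtain ⟨hfin, -, -⟩ := hPRD k hk (m + 1)
      classical
      obtain ⟨F', hF', hle, hT⟩ := good_finset ι h21
        (hfin.toFinset.image fun y => (k : Ω) * (y + y⁻¹)) F hF (by
          intro t ht
          rw [Finset.mem_image] at ht
          obtain ⟨y, hy, rfl⟩ := ht
          have hy' : Lev k (m + 1) y := by simpa using hy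
          obtain ⟨u, hu, h⟩ := hy'
          have hy0 : y ≠ 0 := by
            rintro rfl
            simp at h
            exact hk h
          have e : ((k : Ω) * (y + y⁻¹)) ^ 2 = u ^ 2 + 4 * (k : Ω) ^ 2 := by
            have hu' : u = k * (y - y⁻¹) := by
              field_simp
              linear_combination -h
            rw [hu']
            field_simp
            ring
          have hkF : (k : Ω) ∈ F := by
            exact_mod_cast intCast_mem F k
          refine ⟨?_, ?_⟩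
          · rw [e]
            refine F.add_mem (F.pow_mem (hmem u hu) 2) (F.mul_mem ?_ (F.pow_mem hkF 2))
            exact_mod_cast natCast_mem F 4
          · have h1 := hunit m hm u hu
            rw [← e, map_pow, norm_pow] at h1
            exact (pow_eq_one_iff_of_nonneg (norm_nonneg _) (by norm_num)).1 h1)
      refine ⟨F', hF', fun y hy => ?_⟩
      have ht := hT _ (Finset.mem_image_of_mem _ (by simpa using hy : y ∈ hfin.toFinset))
      obtain ⟨u, hu, h⟩ := hy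
      have hy0 : y ≠ 0 := by
        rintro rfl
        simp at h
        exact hk h
      have hu' : u = k * (y - y⁻¹) := by
        field_simp
        linear_combination -h
      have h20 : (2 : Ω) ≠ 0 := by norm_num
      have e : y = (u + (k : Ω) * (y + y⁻¹)) * (2 * (k : Ω))⁻¹ := by
        rw [hu']
        field_simp
        ring
      rw [e]
      refine F'.mul_mem (F'.add_mem (hle (hmem u hu)) ht) (F'.inv_mem (F'.mul_mem ?_ ?_))
      · exact_mod_cast natCast_mem F' 2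
      · exact_mod_cast intCast_mem F' k
  obtain ⟨F, hF, hmem⟩ := hlev n le_rfl
  have hxF : x ∈ F := by
    have hgal : x ∈ IntermediateField.adjoin ℚ {y : Ω | Lev k n y} := by
      rw [← InfiniteGalois.fixedField_fixingSubgroup
        (IntermediateField.adjoin ℚ {y : Ω | Lev k n y}), IntermediateField.mem_fixedField_iff]
      intro g hg
      rw [IntermediateField.mem_fixingSubgroup_iff] at hg
      exact hfix g fun y hy => hg y (IntermediateField.subset_adjoin ℚ _ hy)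
    have hle : (IntermediateField.adjoin ℚ {y : Ω | Lev k n y}).toSubfield ≤ F := by
      rw [IntermediateField.adjoin_toSubfield]
      rw [Subfield.closure_le]
      rintro z (hz | hz)
      · obtain ⟨r, rfl⟩ := hz
        have : algebraMap ℚ Ω r = (r : Ω) := by simp
        rw [this]
        exact SubfieldClass.ratCast_mem F r
      · exact hmem z hz
    exact hle hgal
  have hx0 : x ≠ 0 := by
    rintro rfl
    apply hd
    have : (0 : Ω) = d := by rw [← hx]; ring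
    exact_mod_cast this.symm
  obtain ⟨m, hm⟩ := hF x hxF hx0
  have hdq : (d : ℚ_[q]) ≠ 0 := by exact_mod_cast hd
  have h1 : ‖ι (d : Ω)‖ = (q : ℝ) ^ (-(padicValInt q d : ℤ)) := by
    rw [norm_int, Padic.norm_eq_zpow_neg_valuation hdq, Padic.valuation_intCast]
  rw [← hx, map_pow, norm_pow, hm, ← zpow_natCast, ← zpow_mul] at h1
  have hq1 : (1 : ℝ) < q := by exact_mod_cast hqp.one_lt
  have h2 := zpow_right_injective₀ (by linarith) hq1.ne' h1
  have h3 : (Even (padicValInt q d : ℤ)) := ⟨-m, by push_cast at h2; linarith⟩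
  exact_mod_cast h3

end Run7.h594.JM
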