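import Pool.Agent.Run7.h594.JM.Gal

/-! Piece TRS (helper594). -/

set_option autoImplicit false

namespace Run7.h594.JM

open Run7.h441.JM

lemma lev_map {L M : Type} [Field L] [Field M] (f : L →+* M) (k : ℤ) :
    ∀ (n : ℕ) (y : L), Lev k n y → Lev k n (f y) := by
  intro n
  induction n with
  | zero =>
    intro y hy
    have : y = 1 := hy
    rw [this, map_one]
    rfl
  | succ n ih =>
    rintro y ⟨u, hu, h⟩
    refine ⟨f u, ih u hu, ?_⟩
    rw [← map_mul, ← h]
    simp

lemma child_ne {L : Type} [Field L] {k : ℤ} (hk : (k : L) ≠ 0) {u y : L}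
    (h : (k : L) * (y ^ 2 - 1) = u * y) : y ≠ 0 := by
  rintro rfl
  apply hk
  linear_combination -h

lemma child_or {L : Type} [Field L] {k : ℤ} (hk : (k : L) ≠ 0) {u y y' : L}
    (h : (k : L) * (y ^ 2 - 1) = u * y) (h' : (k : L) * (y' ^ 2 - 1) = u * y') :
    y' = y ∨ y' = -y⁻¹ := by
  have hy := child_ne hk h
  have e : (k : L) * ((y' - y) * (y * y' + 1)) = 0 := by
    linear_combination y * h' - y' * h
  rcases mul_eq_zero.1 e with h0 | h0
  · exact absurd h0 hk
  rcases mul_eq_zero.1 h0 with h1 | h1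
  · left; linear_combination h1
  · right
    field_simp
    linear_combination h1

/-- the parent -/
lemma parent {L : Type} [Field L] {k : ℤ} (hk : (k : L) ≠ 0) {u y : L}
    (h : (k : L) * (y ^ 2 - 1) = u * y) : u = k * (y - y⁻¹) := by
  have hy := child_ne hk h
  field_simp
  linear_combination -h

lemma sq_eq {L : Type} [Field L] {k : ℤ} (hk : (k : L) ≠ 0) {u y : L}
    (h : (k : L) * (y ^ 2 - 1) = u * y) :
    ((k : L) * (y + y⁻¹)) ^ 2 = u ^ 2 + 4 * (k : L) ^ 2 := by
  have hy := child_ne hk h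
  rw [parent hk h]
  field_simp
  ring

/-- a child of every vertex in an algebraically closed field -/
lemma exists_child {k : ℤ} (hk : (k : Ω) ≠ 0) (u : Ω) :
    ∃ y : Ω, (k : Ω) * (y ^ 2 - 1) = u * y := by
  obtain ⟨t, ht⟩ := IsAlgClosed.exists_pow_nat_eq (u ^ 2 + 4 * (k : Ω) ^ 2)
    (show 0 < 2 by norm_num)
  refine ⟨(u + t) / (2 * k), ?_⟩
  field_simp
  linear_combination ht

/-- all elements of level `n` in an extension come from `Ω` -/
lemma lev_lift {M : Type} [Field M] (ι : Ω →+* M) {k : ℤ} (hk : (k : Ω) ≠ 0) :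
    ∀ (n : ℕ) (w : M), Lev k n w → ∃ v : Ω, Lev k n v ∧ ι v = w := by
  intro n
  induction n with
  | zero =>
    intro w hw
    have : w = 1 := hw
    exact ⟨1, rfl, by rw [map_one, this]⟩
  | succ n ih =>
    rintro w ⟨u, hu, h⟩
    obtain ⟨u', hu', rfl⟩ := ih u hu
    obtain ⟨y, hy⟩ := exists_child hk u'
    have hkM : (k : M) ≠ 0 := by
      have : ι (k : Ω) ≠ 0 := (map_ne_zero ι).2 hk
      rwa [map_intCast] at this
    have h2 : (k : M) * ((ι y) ^ 2 - 1) = ι u' * ι y := by
      have := congrArg ι hy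
      simpa using this
    rcases child_or hkM h2 h with h3 | h3
    · exact ⟨y, ⟨u', hu', hy⟩, h3.symm⟩
    · refine ⟨-y⁻¹, ⟨u', hu', ?_⟩, by rw [h3, map_neg, map_inv₀]⟩
      have hy0 := child_ne hk hy
      field_simp
      linear_combination -hy

/-- if all the stabiliser of the parent fixes `y`: the contradiction -/
lemma key (hPRD : S_PRD) (hNSQ : S_NSQ) (hLOC : S_LOC) {k : ℤ} (hk : k ≠ 0) (n : ℕ)
    (ih : ∀ y y' : Ω, Lev k n y → Lev k n y' → ∃ g : Γ, g y = y') (u y : Ω) (hu : Lev k n u)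
    (hy : (k : Ω) * (y ^ 2 - 1) = u * y) (hfix : ∀ g : Γ, g u = u → g y = y) : False := by
  have hk0 : (k : Ω) ≠ 0 := by exact_mod_cast hk
  -- the section
  have hsec : ∀ v : Ω, ∃ h : Γ, Lev k n v → h u = v := by
    intro v
    by_cases hv : Lev k n v
    · obtain ⟨h, hh⟩ := ih u v hu hv
      exact ⟨h, fun _ => hh⟩
    · exact ⟨1, fun h => absurd h hv⟩
  choose h hh using hsec
  have hz : ∀ v : Ω, Lev k n v → (k : Ω) * ((h v y) ^ 2 - 1) = v * h v y := by
    intro v hv
    have := congrArg (h v) hy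
    simp only [map_mul, map_sub, map_pow, map_one, map_intCast, hh v hv] at this
    exact this
  have hg : ∀ (g : Γ) (v : Ω), Lev k n v → g (h v y) = h (g v) y := by
    intro g v hv
    have hgv : Lev k n (g v) := lev_map (g : Ω →+* Ω) k n v hv
    have h1 : ((h (g v))⁻¹ * g * h v) u = u := by
      simp only [AlgEquiv.mul_apply]
      rw [hh v hv]
      have h2 := hh (g v) hgv
      have h3 : (h (g v))⁻¹ ((h (g v)) u) = u := by
        rw [← AlgEquiv.mul_apply, inv_mul_cancel]; rfl
      rw [h2] at h3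
      exact h3
    have h2 := hfix _ h1
    simp only [AlgEquiv.mul_apply] at h2
    have h3 : h (g v) ((h (g v))⁻¹ (g (h v y))) = g (h v y) := by
      rw [← AlgEquiv.mul_apply, mul_inv_cancel]; rfl
    rw [← h3, h2]
  by_cases hsq : IsSquare (D k (n + 1))
  · -- (b)
    have hcon : (8 : ℤ) ∣ k ∧ 4 ≤ n := by
      by_contra hc
      apply hNSQ k hk (n + 1) (by omega) _ hsq
      by_cases h8 : (8 : ℤ) ∣ k
      · right
        have hn : n < 4 := by
          by_contra h4
          exact hc ⟨h8, by omega⟩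
        interval_cases n
        · right; left; rfl
        · left; decide
        · right; right; rfl
        · left; decide
      · left; exact h8
    obtain ⟨v, hv, hvs⟩ := hLOC k hk hcon.1 n hcon.2
    let ι : Ω →+* AlgebraicClosure ℚ_[2] :=
      (IsAlgClosed.lift : Ω →ₐ[ℚ] AlgebraicClosure ℚ_[2]).toRingHom
    obtain ⟨v', hv', hιv⟩ := lev_lift ι hk0 n _
      (lev_map (algebraMap ℚ_[2] (AlgebraicClosure ℚ_[2])) k n v hv)
    have hmem : h v' y ∈ IntermediateField.adjoin ℚ {v'} := by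
      rw [← InfiniteGalois.fixedField_fixingSubgroup (IntermediateField.adjoin ℚ {v'}),
        IntermediateField.mem_fixedField_iff]
      intro g hgm
      rw [IntermediateField.mem_fixingSubgroup_iff] at hgm
      have h1 := hgm v' (IntermediateField.subset_adjoin ℚ _ rfl)
      rw [hg g v' hv', h1]
    have hle : (IntermediateField.adjoin ℚ {v'}).toSubfield ≤
        (algebraMap ℚ_[2] (AlgebraicClosure ℚ_[2])).fieldRange.comap ι := by
      rw [IntermediateField.adjoin_toSubfield, Subfield.closure_le]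
      rintro z (⟨r, rfl⟩ | hz)
      · have : algebraMap ℚ Ω r = (r : Ω) := by simp
        rw [this, SetLike.mem_coe]
        exact SubfieldClass.ratCast_mem _ r
      · rw [Set.mem_singleton_iff] at hz
        subst hz
        exact ⟨v, hιv.symm⟩
    obtain ⟨s, hs⟩ := hle hmem
    apply hvs
    refine ⟨(k : ℚ_[2]) * (s + s⁻¹), ?_⟩
    have h2 := congrArg ι (sq_eq hk0 (hz v' hv'))
    apply (algebraMap ℚ_[2] (AlgebraicClosure ℚ_[2])).injective
    simp only [map_mul, map_add, map_pow, map_intCast, map_inv₀, map_ofNat] at h2 ⊢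
    rw [← hs, hιv] at h2
    rw [← h2]
    ring
  · -- (a)
    obtain ⟨hfin, -, hprod⟩ := hPRD k hk n
    have hY := hprod hfin.toFinset (fun y => by simp)
    set Y := hfin.toFinset with hYdef
    have hYm : ∀ v : Ω, v ∈ Y ↔ Lev k n v := fun v => by simp [hYdef]
    have hP : ∀ g : Γ, g (∏ v ∈ Y, (k : Ω) * (h v y + (h v y)⁻¹)) =
        ∏ v ∈ Y, (k : Ω) * (h v y + (h v y)⁻¹) := by
      intro g
      rw [map_prod]
      refine Finset.prod_bij (fun v _ => g v) ?_ ?_ ?_ ?_
      · intro v hv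
        rw [hYm] at hv ⊢
        exact lev_map (g : Ω →+* Ω) k n v hv
      · intro a _ b _ hab
        exact g.injective hab
      · intro b hb
        rw [hYm] at hb
        refine ⟨g⁻¹ b, ?_, ?_⟩
        · rw [hYm]
          exact lev_map ((g⁻¹ : Γ) : Ω →+* Ω) k n b hb
        · change g (g⁻¹ b) = b
          rw [← AlgEquiv.mul_apply, mul_inv_cancel]; rfl
      · intro v hv
        rw [hYm] at hv
        simp only [map_mul, map_add, map_inv₀, map_intCast, hg g v hv]
    obtain ⟨r, hr⟩ := (InfiniteGalois.mem_range_algebraMap_iff_fixed _).2 hP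
    have hP2 : (∏ v ∈ Y, (k : Ω) * (h v y + (h v y)⁻¹)) ^ 2 =
        ∏ v ∈ Y, (v ^ 2 + 4 * (k : Ω) ^ 2) := by
      rw [← Finset.prod_pow]
      exact Finset.prod_congr rfl fun v hv => sq_eq hk0 (hz v ((hYm v).1 hv))
    rw [← hP2, ← hr] at hY
    have e1 : 2 ^ (n + 1) - 2 = 2 * (2 ^ n - 1) := by
      rw [pow_succ]; omega
    have h3 : ((k : ℚ) ^ (2 ^ n - 1) * r) ^ 2 = ((D k (n + 1) : ℤ) : ℚ) := by
      apply (algebraMap ℚ Ω).injective
      rw [e1] at hY
      simp only [map_mul, map_pow, map_intCast]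
      rw [← hY]
      ring
    apply hsq
    rw [← Rat.isSquare_intCast_iff]
    exact ⟨(k : ℚ) ^ (2 ^ n - 1) * r, by rw [← h3, sq]⟩

theorem t_TRS (hPRD : S_PRD) (hNSQ : S_NSQ) (hLOC : S_LOC) : S_TRS := by
  intro k hk n
  have hk0 : (k : Ω) ≠ 0 := by exact_mod_cast hk
  induction n with
  | zero =>
    intro y y' hy hy'
    have h1 : y = 1 := hy
    have h2 : y' = 1 := hy'
    exact ⟨1, by rw [h1, h2]; rfl⟩
  | succ n ih =>
    have hflip : ∀ y : Ω, Lev k (n + 1) y → ∃ g : Γ, g y = -y⁻¹ := by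
      rintro y ⟨u, hu, hy⟩
      by_contra hcon
      push Not at hcon
      refine key hPRD hNSQ hLOC hk n ih u y hu hy fun g hgu => ?_
      have h1 : (k : Ω) * ((g y) ^ 2 - 1) = u * g y := by
        have := congrArg g hy
        simp only [map_mul, map_sub, map_pow, map_one, map_intCast, hgu] at this
        exact this
      rcases child_or hk0 hy h1 with h2 | h2
      · exact h2
      · exact absurd h2 (hcon g)
    rintro y y' ⟨u, hu, hy⟩ ⟨u', hu', hy'⟩
    obtain ⟨g, hgu⟩ := ih u u' hu hu'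
    have h1 : (k : Ω) * ((g y) ^ 2 - 1) = u' * g y := by
      have := congrArg g hy
      simp only [map_mul, map_sub, map_pow, map_one, map_intCast, hgu] at this
      exact this
    rcases child_or hk0 h1 hy' with h2 | h2
    · exact ⟨g, h2.symm⟩
    · obtain ⟨g', hg'⟩ := hflip (g y) ⟨u', hu', h1⟩
      exact ⟨g' * g, by rw [AlgEquiv.mul_apply, hg', h2]⟩

end Run7.h594.JM
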