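import Pool.Agent.Run7.h441.JM.Stm

/-! Project JM: `Ω / ℚ` is Galois, for the instance `DivisionRing.toRatAlgebra` used in `Γ`. -/

set_option autoImplicit false

namespace Run7.h594.JM

open Run7.h441.JM

instance isAlgebraicΩ : Algebra.IsAlgebraic ℚ Ω := by
  have := AlgebraicClosure.isAlgebraic ℚ
  convert this
  all_goals rfl

instance isAlgClosureΩ : IsAlgClosure ℚ Ω := ⟨inferInstance, inferInstance⟩

instance normalΩ : Normal ℚ Ω := IsAlgClosure.normal ℚ Ω

instance isGaloisΩ : IsGalois ℚ Ω where

end Run7.h594.JM
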